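import Pool.Agent.Helper41.LD5.Defs

/-!
# Block FPA of LD5: the functions `fp`, `pwf`
-/

set_option autoImplicit false

namespace Pool.Agent.Helper36.LD5

open Set MeasureTheory Filter Topology
open Pool.Agent.Helper41.LD4
open Pool.Agent.Helper41.LD5

section

variable {A₀ : ℝ} {P Q m m' e : ℕ} {x y a ℓ : ℝ}

theorem fp_pos (hA : 0 < A₀) (hP : 1 ≤ P) (hm : 1 ≤ m) (hx : 0 < x) : 0 < fp A₀ P m x := by
  have hP0 : (0 : ℝ) < P := by exact_mod_cast hP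
  have hm0 : (0 : ℝ) < m := by exact_mod_cast hm
  unfold fp
  positivity

theorem fp_nonneg (hA : 0 < A₀) (hx : 0 < x) : 0 ≤ fp A₀ P m x := by
  unfold fp
  positivity

theorem fp_mono (hA : 0 < A₀) (hP : 1 ≤ P) (hm : P ≤ m) (hx : 0 < x) (hxy : x ≤ y) : fp A₀ P m x ≤ fp A₀ P m y := by
  have hP0 : (0 : ℝ) < P := by exact_mod_cast hP
  have hmP : (P : ℝ) ≤ m := by exact_mod_cast hm
  have h1 : 0 ≤ (m : ℝ) / P - 1 := by
    rw [sub_nonneg, le_div_iff₀ hP0, one_mul]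
    exact hmP
  unfold fp
  exact mul_le_mul_of_nonneg_left (Real.rpow_le_rpow hx.le hxy h1) (by positivity)

/-- growth in `m` -/
theorem fp_step (hA : 0 < A₀) (hP : 1 ≤ P) (h1 : 1 ≤ y) (hyx : y ≤ x) (hmm : m ≤ m') :
    fp A₀ P m x * (y ^ (1 / (P : ℝ))) ^ (m' - m) ≤ fp A₀ P m' x := by
  have hP0 : (0 : ℝ) < P := by exact_mod_cast hP
  have hy0 : 0 < y := by linarith
  have hx0 : 0 < x := by linarith
  have hmr : (m : ℝ) ≤ m' := by exact_mod_cast hmm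
  have h2 : (y ^ (1 / (P : ℝ))) ^ (m' - m) ≤ x ^ (((m' : ℝ) - m) / P) := by
    rw [← Real.rpow_natCast, ← Real.rpow_mul hy0.le, Nat.cast_sub hmm]
    have h3 : 1 / (P : ℝ) * ((m' : ℝ) - m) = ((m' : ℝ) - m) / P := by ring
    rw [h3]
    exact Real.rpow_le_rpow hy0.le hyx (div_nonneg (by linarith) hP0.le)
  have h5 : x ^ ((m' : ℝ) / P - 1) = x ^ ((m : ℝ) / P - 1) * x ^ (((m' : ℝ) - m) / P) := by
    rw [← Real.rpow_add hx0]
    congr 1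
    ring
  have h6 : (m : ℝ) / P ≤ (m' : ℝ) / P := div_le_div_of_nonneg_right hmr hP0.le
  unfold fp
  rw [h5, mul_assoc]
  exact mul_le_mul (mul_le_mul_of_nonneg_left h6 hA.le) (mul_le_mul_of_nonneg_left h2 (by positivity)) (by positivity) (by positivity)

theorem pwf_deriv (cp : ℝ → ℝ) (hx : 0 < x) : HasDerivAt (pwf A₀ cp P m) (fp A₀ P m x) x := by
  have h := ((Real.hasDerivAt_rpow_const (x := x) (p := (m : ℝ) / P) (Or.inl hx.ne')).const_mul A₀).add_const (cp ((m : ℝ) / P))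
  unfold fp
  rw [mul_assoc]
  exact h

theorem pwf_meas (A₀ : ℝ) (cp : ℝ → ℝ) (P m : ℕ) : Measurable (pwf A₀ cp P m) := by
  unfold pwf
  fun_prop

/-- small changes of the point: `(x / a) ^ (m / P - 1) ≤ exp (m δ)` -/
theorem fp_near (hA : 0 < A₀) (hP : 1 ≤ P) (hm : P ≤ m) {K : ℕ} (hm2 : m ≤ 2 ^ (3 * K)) {δ : ℝ} (ha : 1 ≤ a) (hax : a ≤ x) (hxa : x ≤ a + δ)
    (hδ : δ * 2 ^ (4 * K + 1) ≤ 1) : fp A₀ P m x ≤ fp A₀ P m a * (1 + 2 ^ (3 * K + 1) * δ) := by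
  have hP0 : (0 : ℝ) < P := by exact_mod_cast hP
  have hP1 : (1 : ℝ) ≤ P := by exact_mod_cast hP
  have hmP : (P : ℝ) ≤ m := by exact_mod_cast hm
  have hmK : (m : ℝ) ≤ 2 ^ (3 * K) := by exact_mod_cast hm2
  have ha0 : 0 < a := by linarith
  have hx0 : 0 < x := by linarith
  have hδ0 : 0 ≤ δ := by linarith
  have h1 : 0 ≤ (m : ℝ) / P - 1 := by
    rw [sub_nonneg, le_div_iff₀ hP0, one_mul]
    exact hmP
  have h2 : (m : ℝ) / P - 1 ≤ 2 ^ (3 * K) := by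
    have : (m : ℝ) / P ≤ m := div_le_self (Nat.cast_nonneg _) hP1
    linarith
  have h3 : x ≤ a * Real.exp δ := by
    have h4 := Real.add_one_le_exp δ
    have h5 : a * (δ + 1) ≤ a * Real.exp δ := mul_le_mul_of_nonneg_left h4 ha0.le
    nlinarith
  have h4 : x ^ ((m : ℝ) / P - 1) ≤ a ^ ((m : ℝ) / P - 1) * Real.exp (2 ^ (3 * K) * δ) := by
    calc x ^ ((m : ℝ) / P - 1) ≤ (a * Real.exp δ) ^ ((m : ℝ) / P - 1) := Real.rpow_le_rpow hx0.le h3 h1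
      _ = a ^ ((m : ℝ) / P - 1) * Real.exp (δ * ((m : ℝ) / P - 1)) := by
        rw [Real.mul_rpow ha0.le (Real.exp_pos _).le, ← Real.exp_mul]
      _ ≤ _ := by
        apply mul_le_mul_of_nonneg_left _ (by positivity)
        apply Real.exp_le_exp.2
        rw [mul_comm δ]
        exact mul_le_mul_of_nonneg_right h2 hδ0
  have h5 : (2 : ℝ) ^ (3 * K) * δ ≤ 1 := by
    have h6 : (2 : ℝ) ^ (3 * K) ≤ 2 ^ (4 * K + 1) := pow_le_pow_right₀ (by norm_num) (by omega)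
    have h7 := mul_le_mul_of_nonneg_left h6 hδ0
    linarith
  have h6 : Real.exp (2 ^ (3 * K) * δ) ≤ 1 + 2 ^ (3 * K + 1) * δ := by
    have h7 : 0 ≤ (2 : ℝ) ^ (3 * K) * δ := by positivity
    have h8 := Real.abs_exp_sub_one_le (x := 2 ^ (3 * K) * δ) (by rw [abs_of_nonneg h7]; exact h5)
    rw [abs_of_nonneg h7] at h8
    have h9 := (le_abs_self _).trans h8
    rw [pow_succ]
    linarith
  unfold fp
  calc A₀ * ((m : ℝ) / P) * x ^ ((m : ℝ) / P - 1)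
      ≤ A₀ * ((m : ℝ) / P) * (a ^ ((m : ℝ) / P - 1) * Real.exp (2 ^ (3 * K) * δ)) := mul_le_mul_of_nonneg_left h4 (by positivity)
    _ = (A₀ * ((m : ℝ) / P) * a ^ ((m : ℝ) / P - 1)) * Real.exp (2 ^ (3 * K) * δ) := by ring
    _ ≤ _ := mul_le_mul_of_nonneg_left h6 (by positivity)

/-- quotients -/
theorem fp_div (hA : 0 < A₀) (hP : 1 ≤ P) (hm : 1 ≤ m) (hx : 0 < x) :
    fp A₀ P m' x / fp A₀ P m x = ((m' : ℝ) / m) * x ^ (((m' : ℝ) - m) / P) := by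
  have hP0 : (0 : ℝ) < P := by exact_mod_cast hP
  have hm0 : (0 : ℝ) < m := by exact_mod_cast hm
  have h5 : x ^ ((m' : ℝ) / P - 1) = x ^ (((m' : ℝ) - m) / P) * x ^ ((m : ℝ) / P - 1) := by
    rw [← Real.rpow_add hx]
    congr 1
    ring
  have h6 : 0 < x ^ ((m : ℝ) / P - 1) := by positivity
  unfold fp
  rw [h5]
  field_simp

end

section

variable {F : Fam} {κ D K : ℕ} {a₀ ℓst a ℓ x : ℝ} {m e : ℕ}

/-- one step of a class -/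
theorem fp_add_le (hF : F.Ok) (hm : F.P ≤ m) (h1 : F.x₁ ≤ x) (h2 : x ≤ F.x₂) : fp F.A₀ F.P (m + F.Q) x ≤ 2 ^ F.DF * fp F.A₀ F.P m x := by
  have hP0 : (0 : ℝ) < F.P := by exact_mod_cast hF.hP
  have hx1 : 1 < x := hF.h1.trans_le h1
  have hx0 : 0 < x := by linarith
  have hA := hF.hA
  have hQ0 : (0 : ℝ) ≤ F.Q := Nat.cast_nonneg _
  have hmP : (F.P : ℝ) ≤ m := by exact_mod_cast hm
  unfold fp
  have h5 : x ^ (((m + F.Q : ℕ) : ℝ) / F.P - 1) = x ^ ((m : ℝ) / F.P - 1) * x ^ ((F.Q : ℝ) / F.P) := by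
    rw [← Real.rpow_add hx0]
    congr 1
    push_cast
    ring
  rw [h5]
  have h6 : ((m + F.Q : ℕ) : ℝ) / F.P ≤ ((m : ℝ) / F.P) * (1 + (F.Q : ℝ) / F.P) := by
    push_cast
    have h7 : 1 ≤ (m : ℝ) / F.P := by rwa [le_div_iff₀ hP0, one_mul]
    have h8 : (F.Q : ℝ) / F.P * 1 ≤ (F.Q : ℝ) / F.P * ((m : ℝ) / F.P) := mul_le_mul_of_nonneg_left h7 (by positivity)
    rw [add_div]
    nlinarith
  have h7 : x ^ ((F.Q : ℝ) / F.P) ≤ F.x₂ ^ ((F.Q : ℝ) / F.P) := Real.rpow_le_rpow hx0.le h2 (by positivity)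
  have h8 : 0 ≤ x ^ ((m : ℝ) / F.P - 1) := by positivity
  have h9 : 0 ≤ x ^ ((F.Q : ℝ) / F.P) := by positivity
  calc F.A₀ * (((m + F.Q : ℕ) : ℝ) / F.P) * (x ^ ((m : ℝ) / F.P - 1) * x ^ ((F.Q : ℝ) / F.P))
      ≤ F.A₀ * (((m : ℝ) / F.P) * (1 + (F.Q : ℝ) / F.P)) * (x ^ ((m : ℝ) / F.P - 1) * F.x₂ ^ ((F.Q : ℝ) / F.P)) := by
        apply mul_le_mul (mul_le_mul_of_nonneg_left h6 hA.le) (mul_le_mul_of_nonneg_left h7 h8) (by positivity) (by positivity)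
    _ = ((1 + (F.Q : ℝ) / F.P) * F.x₂ ^ ((F.Q : ℝ) / F.P)) * (F.A₀ * ((m : ℝ) / F.P) * x ^ ((m : ℝ) / F.P - 1)) := by ring
    _ ≤ 2 ^ F.DF * (F.A₀ * ((m : ℝ) / F.P) * x ^ ((m : ℝ) / F.P - 1)) :=
        mul_le_mul_of_nonneg_right hF.hDF (by positivity)

/-- nearly linear on the windows of a stage: `|V x - V a| ≤ V a * 2 ^ (3 K + 1) ℓ`, `ℓ ≤ ℓst ≤ 2 ^ (-K K ^ (2 κ + 1))` -/
theorem pwf_lin (hF : F.Ok) (hκ : 1 ≤ κ) (hK : 100 ≤ K) (hm : F.P ≤ m) (hm2 : m ≤ 2 ^ (3 * K)) (ha : F.x₁ ≤ a) (hℓ : 0 < ℓ)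
    (hsm : ℓ * 2 ^ (K ^ (2 * κ + 2)) ≤ 1) (hV : fp F.A₀ F.P m a * ℓ ≤ 2 ^ (K ^ (2 * κ + 1) + 30 * K)) :
    ∀ x ∈ Icc a (a + ℓ), |pwf F.A₀ F.cp F.P m x - (fp F.A₀ F.P m a * x + (pwf F.A₀ F.cp F.P m a - fp F.A₀ F.P m a * a))| ≤ (1 / 2) ^ (16 * K) := by
  intro x hx
  have h1a : 1 ≤ a := hF.h1.le.trans ha
  have ha0 : 0 < a := by linarith
  have hA := hF.hA
  have hf0 : 0 ≤ fp F.A₀ F.P m a := fp_nonneg hA ha0
  have hKp : K ≤ K ^ (2 * κ + 1) := Nat.le_self_pow (by omega) K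
  have hKK : K ^ (2 * κ + 1) + 50 * K ≤ K ^ (2 * κ + 2) := by
    have h1 : K ^ (2 * κ + 2) = K ^ (2 * κ + 1) * K := by rw [← pow_succ]
    have h2 : K ^ (2 * κ + 1) * 100 ≤ K ^ (2 * κ + 1) * K := Nat.mul_le_mul_left _ hK
    omega
  have hδ : ℓ * 2 ^ (4 * K + 1) ≤ 1 := by
    have h2 : (2 : ℝ) ^ (4 * K + 1) ≤ 2 ^ (K ^ (2 * κ + 2)) := pow_le_pow_right₀ (by norm_num) (by omega)
    exact (mul_le_mul_of_nonneg_left h2 hℓ.le).trans hsm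
  -- the error of the linear approximation
  have hmain : |pwf F.A₀ F.cp F.P m x - (fp F.A₀ F.P m a * x + (pwf F.A₀ F.cp F.P m a - fp F.A₀ F.P m a * a))| ≤
      fp F.A₀ F.P m a * (2 ^ (3 * K + 1) * ℓ) * ℓ := by
    rcases eq_or_lt_of_le hx.1 with heq | hlt
    · rw [← heq]
      have : pwf F.A₀ F.cp F.P m a - (fp F.A₀ F.P m a * a + (pwf F.A₀ F.cp F.P m a - fp F.A₀ F.P m a * a)) = 0 := by ring
      rw [this, abs_zero]
      positivity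
    · obtain ⟨ξ, hξ, hξe⟩ := exists_hasDerivAt_eq_slope (pwf F.A₀ F.cp F.P m) (fp F.A₀ F.P m) hlt
        (fun t ht => (pwf_deriv F.cp (lt_of_lt_of_le ha0 ht.1)).continuousAt.continuousWithinAt)
        (fun t ht => pwf_deriv F.cp (ha0.trans ht.1))
      have hxa : 0 < x - a := by linarith
      have h3 : pwf F.A₀ F.cp F.P m x - pwf F.A₀ F.cp F.P m a = fp F.A₀ F.P m ξ * (x - a) := by
        rw [hξe, div_mul_cancel₀ _ hxa.ne']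
      have h4 : pwf F.A₀ F.cp F.P m x - (fp F.A₀ F.P m a * x + (pwf F.A₀ F.cp F.P m a - fp F.A₀ F.P m a * a)) =
          (fp F.A₀ F.P m ξ - fp F.A₀ F.P m a) * (x - a) := by
        linarith
      have h5 := fp_mono hA hF.hP hm ha0 hξ.1.le
      have h6 := fp_near hA hF.hP hm hm2 h1a hξ.1.le (δ := ℓ) (hξ.2.le.trans hx.2) hδ
      rw [h4, abs_of_nonneg (mul_nonneg (by linarith) hxa.le)]
      apply mul_le_mul _ (by linarith [hx.2]) hxa.le (by positivity)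
      linarith
  refine hmain.trans ?_
  have h7 : fp F.A₀ F.P m a * (2 ^ (3 * K + 1) * ℓ) * ℓ = (fp F.A₀ F.P m a * ℓ) * (2 ^ (3 * K + 1) * ℓ) := by ring
  rw [h7]
  have h8 : (2 : ℝ) ^ (K ^ (2 * κ + 1) + 30 * K) * 2 ^ (3 * K + 1) * 2 ^ (16 * K) ≤ 2 ^ (K ^ (2 * κ + 2)) := by
    rw [← pow_add, ← pow_add]
    exact pow_le_pow_right₀ (by norm_num) (by omega)
  have h9 : (fp F.A₀ F.P m a * ℓ) * (2 ^ (3 * K + 1) * ℓ) ≤ 2 ^ (K ^ (2 * κ + 1) + 30 * K) * (2 ^ (3 * K + 1) * ℓ) :=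
    mul_le_mul_of_nonneg_right hV (by positivity)
  refine h9.trans ?_
  rw [one_div, inv_pow, ← one_div, le_div_iff₀ (by positivity)]
  calc (2 : ℝ) ^ (K ^ (2 * κ + 1) + 30 * K) * (2 ^ (3 * K + 1) * ℓ) * 2 ^ (16 * K)
      = ℓ * (2 ^ (K ^ (2 * κ + 1) + 30 * K) * 2 ^ (3 * K + 1) * 2 ^ (16 * K)) := by ring
    _ ≤ ℓ * 2 ^ (K ^ (2 * κ + 2)) := mul_le_mul_of_nonneg_left h8 hℓ.le
    _ ≤ 1 := hsm

end

end Pool.Agent.Helper36.LD5
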